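import Mathlib
import Pool.Agent.LZS.Main
import Pool.Agent.LZS.AnaR

/-!
# Star transposition shuffles of length O(n^2 / (log n)^(1/3))

`LZS.prodLaw`, `LZS.IsShuffle`, `LZS.IsStar` are in `Pool/Agent/LZS/Star.lean`.
-/

namespace Pool.Agent.Results.MP_89e859_co.StarShuffleLogSaving

/-- the least length of a shuffle of `n` elements by lazy star transpositions -/
noncomputable def starLength (n : ℕ) : ℕ :=
  sInf {l | ∃ L : List (Fin n × Fin n × ℝ), LZS.IsShuffle n L ∧ LZS.IsStar n L ∧ L.length = l}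

/-- the least length of a shuffle of `n` elements by lazy transpositions -/
noncomputable def shuffleLength (n : ℕ) : ℕ :=
  sInf {l | ∃ L : List (Fin n × Fin n × ℝ), LZS.IsShuffle n L ∧ L.length = l}

theorem result :
    (∀ n : ℕ, 2 ≤ n → ∃ L : List (Fin n × Fin n × ℝ), LZS.IsShuffle n L ∧ LZS.IsStar n L) ∧
    ∃ C : ℝ, 0 < C ∧ ∀ n : ℕ, 2 ≤ n →
      (starLength n : ℝ) ≤ C * (n : ℝ) ^ 2 / (Real.log n) ^ (1 / 3 : ℝ) ∧
      (shuffleLength n : ℝ) ≤ C * (n : ℝ) ^ 2 / (Real.log n) ^ (1 / 3 : ℝ) := by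
  obtain ⟨C, hC, hU⟩ : ∃ C : ℝ, 0 < C ∧ ∀ n : ℕ, 2 ≤ n →
      (LZS.Uc n : ℝ) ≤ C * (n : ℝ) ^ 2 / (Real.log n) ^ (1 / 3 : ℝ) := by
    apply LZS.anaR LZS.Sc LZS.Uc
    · intro n
      exact Nat.le_zero.1 (LZS.Sc_le (LZS.SB_zero n))
    · intro n
      exact LZS.Sc_le (LZS.SB_one n)
    · intro n a b hab
      exact LZS.Sc_le (LZS.SB_add hab (LZS.Sc_spec n a) (LZS.Sc_spec (n - a) b))
    · intro n t ht
      exact LZS.Uc_le (LZS.UB_rec ht (LZS.Uc_spec t) (LZS.Uc_spec (n - t)) (LZS.Sc_spec n t))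
    · intro n t ht
      exact LZS.Sc_le (LZS.SB_succ ht (LZS.Uc_spec t) (LZS.Sc_spec n t))
    · intro s h hs hh
      exact LZS.Sc_le (LZS.layered hs hh (LZS.Uc_spec s) (fun b => LZS.Sc h (s - 1 + 2 * b))
        (fun b _ => LZS.Sc_spec h (s - 1 + 2 * b)))
  refine ⟨fun n hn => ?_, 3 * C, by positivity, fun n hn => ?_⟩
  · obtain ⟨L, h1, h2, -⟩ := LZS.star_of_UB hn (LZS.UB_sq n)
    exact ⟨L, h1, h2⟩
  · obtain ⟨L, h1, h2, h3⟩ := LZS.star_of_UB hn (LZS.Uc_spec n)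
    have h4 : starLength n ≤ L.length := Nat.sInf_le ⟨L, h1, h2, rfl⟩
    have h5 : shuffleLength n ≤ L.length := Nat.sInf_le ⟨L, h1, rfl⟩
    have h6 : (L.length : ℝ) ≤ 3 * (LZS.Uc n : ℝ) := by exact_mod_cast h3
    have h7 := hU n hn
    have h8 : (L.length : ℝ) ≤ 3 * C * (n : ℝ) ^ 2 / (Real.log n) ^ (1 / 3 : ℝ) := by
      calc (L.length : ℝ) ≤ 3 * (LZS.Uc n : ℝ) := h6
        _ ≤ 3 * (C * (n : ℝ) ^ 2 / (Real.log n) ^ (1 / 3 : ℝ)) := by linarith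
        _ = 3 * C * (n : ℝ) ^ 2 / (Real.log n) ^ (1 / 3 : ℝ) := by ring
    exact ⟨(Nat.cast_le.2 h4).trans h8, (Nat.cast_le.2 h5).trans h8⟩

end Pool.Agent.Results.MP_89e859_co.StarShuffleLogSaving
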